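import Pool.Agent.H83.UE.Targets4

/-!
# Equidistribution for Ueda maps, literal form (row PKF, MP_75a732_an)
-/

set_option autoImplicit false

namespace Pool.Agent.H19.UDB

open Pool.Agent.H83.UE

theorem pf_PKF (h1 : T_PKE) (h2 : T_ALG) : T_PKF := by
  intro k m d hd hm g
  obtain ⟨μ, hμ, h3⟩ := h1 k m d hd hm g
  refine ⟨μ, hμ, fun 𝓕 h𝓕 hG => ?_⟩
  obtain ⟨δ, hδ⟩ := h2 k m hm 𝓕 h𝓕 (by
    obtain ⟨Λ, hΛ1, hΛ2⟩ := hG 0 Fin.elim0 (Nat.zero_le k) (Nat.zero_le _) (fun i => i.elim0)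
    refine ⟨Λ, by rw [hΛ1, Nat.add_zero], fun a ha hF => hΛ2 a ha hF ?_⟩
    refine ⟨pol a, ?_, ?_⟩
    · unfold pol
      refine Polynomial.natDegree_sum_le_of_forall_le _ _ fun i _ => ?_
      have h4 := Polynomial.natDegree_C_mul_X_pow_le (a i) (i : ℕ)
      have h5 := i.isLt
      omega
    · simp)
  refine ⟨δ, hδ.degree, ?_⟩
  exact h3 𝓕 δ h𝓕 hδ fun j e _ => hG j e

end Pool.Agent.H19.UDB
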