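import Pool.Agent.H83.UE.Targets4

/-!
# Structure of a prime ideal (row PRA, MP_75a732_an)
-/

set_option autoImplicit false

namespace Pool.Agent.H19.UDB

open Pool.Agent.H83.UE

theorem vars_pderiv_sub {k : ℕ} (j : Fin k) (h : MvPolynomial (Fin k) ℂ) :
    (MvPolynomial.pderiv j h).vars ⊆ h.vars := by
  intro i hi
  rw [MvPolynomial.mem_vars_iff_mem_support] at hi ⊢
  obtain ⟨d, hd, hid⟩ := hi
  rw [MvPolynomial.mem_support_iff, MvPolynomial.coeff_pderiv] at hd
  refine ⟨d + Finsupp.single j 1, ?_, ?_⟩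
  · rw [MvPolynomial.mem_support_iff]
    exact left_ne_zero_of_mul hd
  · rw [Finsupp.mem_support_iff] at hid ⊢
    rw [Finsupp.add_apply]
    omega

theorem degreeOf_pderiv_lt {k : ℕ} (j : Fin k) (h : MvPolynomial (Fin k) ℂ)
    (h0 : 0 < MvPolynomial.degreeOf j h) :
    MvPolynomial.degreeOf j (MvPolynomial.pderiv j h) < MvPolynomial.degreeOf j h := by
  rw [MvPolynomial.degreeOf_lt_iff h0]
  intro d hd
  rw [MvPolynomial.mem_support_iff, MvPolynomial.coeff_pderiv] at hd
  have h1 : d + Finsupp.single j 1 ∈ h.support := by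
    rw [MvPolynomial.mem_support_iff]
    exact left_ne_zero_of_mul hd
  have h2 := MvPolynomial.monomial_le_degreeOf j h1
  rw [Finsupp.add_apply, Finsupp.single_eq_same] at h2
  omega

theorem pderiv_ne_zero {k : ℕ} (j : Fin k) (h : MvPolynomial (Fin k) ℂ)
    (h0 : 0 < MvPolynomial.degreeOf j h) : MvPolynomial.pderiv j h ≠ 0 := by
  intro hz
  have h1 : MvPolynomial.degreeOf j h ≤ 0 := by
    rw [MvPolynomial.degreeOf_le_iff]
    intro d hd
    by_contra hcon
    obtain ⟨e, he⟩ : ∃ e : Fin k →₀ ℕ, d = e + Finsupp.single j 1 := by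
      refine ⟨d - Finsupp.single j 1, ?_⟩
      rw [tsub_add_cancel_of_le]
      rw [Finsupp.single_le_iff]
      omega
    have h2 := MvPolynomial.coeff_pderiv (i := j) h e
    rw [hz, MvPolynomial.coeff_zero, ← he] at h2
    rw [MvPolynomial.mem_support_iff] at hd
    have h3 : ((e j : ℂ) + 1) ≠ 0 := by
      exact_mod_cast Nat.succ_ne_zero (e j)
    exact mul_ne_zero hd h3 h2.symm
  omega

theorem pf_PRA : T_PRA := by
  classical
  intro k P hP
  obtain ⟨S, hS⟩ : ∃ S : Finset (Finset (Fin k)), ∀ B, B ∈ S ↔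
      ∀ h : MvPolynomial (Fin k) ℂ, h.vars ⊆ B → h ∈ P → h = 0 :=
    ⟨Finset.univ.filter fun B => ∀ h : MvPolynomial (Fin k) ℂ, h.vars ⊆ B → h ∈ P → h = 0,
      fun B => by simp⟩
  have hne : S.Nonempty := by
    refine ⟨∅, ?_⟩
    rw [hS]
    intro h hv hh
    rw [Finset.subset_empty, MvPolynomial.vars_eq_empty_iff_eq_C] at hv
    by_contra hne
    have hc : h.coeff 0 ≠ 0 := by
      intro h0
      rw [h0, map_zero] at hv
      exact hne hv
    apply hP.ne_top
    rw [Ideal.eq_top_iff_one]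
    have h1 := P.mul_mem_left (MvPolynomial.C (h.coeff 0)⁻¹) hh
    rw [hv, MvPolynomial.coeff_C, if_pos rfl, ← MvPolynomial.C_mul, inv_mul_cancel₀ hc,
      MvPolynomial.C_1] at h1
    exact h1
  obtain ⟨B, hB, hmax⟩ := S.exists_max_image Finset.card hne
  rw [hS] at hB
  have hG : ∀ j, j ∉ B → ∃ g : MvPolynomial (Fin k) ℂ, g ∈ P ∧ g.vars ⊆ insert j B ∧
      MvPolynomial.pderiv j g ∉ P := by
    intro j hj
    have hex : ∃ n, ∃ h : MvPolynomial (Fin k) ℂ, h.vars ⊆ insert j B ∧ h ∈ P ∧ h ≠ 0 ∧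
        MvPolynomial.degreeOf j h = n := by
      by_contra hcon
      have h1 : insert j B ∈ S := by
        rw [hS]
        intro h hv hh
        by_contra h0
        exact hcon ⟨_, h, hv, hh, h0, rfl⟩
      have h2 := hmax _ h1
      rw [Finset.card_insert_of_notMem hj] at h2
      omega
    obtain ⟨h, hv, hh, h0, hn⟩ := Nat.find_spec hex
    have hpos : 0 < MvPolynomial.degreeOf j h := by
      rw [Nat.pos_iff_ne_zero]
      intro hz
      apply h0
      refine hB h (fun i hi => ?_) hh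
      rcases Finset.mem_insert.1 (hv hi) with h1 | h1
      · rw [h1, MvPolynomial.mem_vars_iff_degreeOf_ne_zero] at hi
        exact absurd hz hi
      · exact h1
    refine ⟨h, hh, hv, fun hd => ?_⟩
    have h3 := degreeOf_pderiv_lt j h hpos
    refine Nat.find_min hex (m := MvPolynomial.degreeOf j (MvPolynomial.pderiv j h)) ?_
      ⟨MvPolynomial.pderiv j h, (vars_pderiv_sub j h).trans hv, hd, pderiv_ne_zero j h hpos, rfl⟩
    rw [← hn]
    exact h3
  choose! G hG1 using hG
  exact ⟨B, G, hB, hG1⟩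

end Pool.Agent.H19.UDB
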